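import Pool.Agent.Y506.FF.Stm

/-! # FF-LOG: one-dimensional logarithmic moment -/

set_option autoImplicit false

namespace Pool.Agent.Y761.FF

open MeasureTheory Set Filter Topology
open scoped ENNReal

theorem log_sq_le {s : ℝ} (hs : 0 < s) (hs1 : s ≤ 1) :
    (-Real.log s) ^ 2 ≤ 16 * s ^ (-(1 / 2) : ℝ) := by
  set y : ℝ := s ^ (-(1 / 4) : ℝ) with hy
  have hy0 : 0 < y := Real.rpow_pos_of_pos hs _
  have h1 : -Real.log s = 4 * Real.log y := by
    rw [hy, Real.log_rpow hs]
    ring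
  have h2 : -Real.log s ≤ 4 * y := by
    rw [h1]
    have := Real.log_le_self hy0.le
    linarith
  have h3 : 0 ≤ -Real.log s := by
    have := Real.log_nonpos hs.le hs1
    linarith
  have h4 : y ^ 2 = s ^ (-(1 / 2) : ℝ) := by
    rw [hy, ← Real.rpow_natCast, ← Real.rpow_mul hs.le]
    norm_num
  calc (-Real.log s) ^ 2 ≤ (4 * y) ^ 2 := pow_le_pow_left₀ h3 h2 2
    _ = 16 * s ^ (-(1 / 2) : ℝ) := by rw [mul_pow, h4]; norm_num

/-- pointwise bound -/
theorem pw_bound {g u : ℝ} (hg0 : 0 ≤ g) (hg1 : g ≤ 1) (hs : 0 < 1 + g * u) :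
    max 0 (-Real.log (1 + g * u)) ≤ 1 + u ^ 2 +
      16 * (g * (Ioo (0 : ℝ) 1).indicator (fun s => s ^ (-(1 / 2) : ℝ)) (1 + g * u)) := by
  set s : ℝ := 1 + g * u with hsdef
  have hind : 0 ≤ (Ioo (0 : ℝ) 1).indicator (fun s => s ^ (-(1 / 2) : ℝ)) s :=
    indicator_nonneg (fun x hx => (Real.rpow_pos_of_pos hx.1 _).le) _
  have hlast : 0 ≤ 16 * (g * (Ioo (0 : ℝ) 1).indicator (fun s => s ^ (-(1 / 2) : ℝ)) s) := by
    positivity
  have hu2 : 0 ≤ u ^ 2 := sq_nonneg u
  by_cases hs2 : 1 / 2 ≤ s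
  · have h1 : -Real.log s ≤ 1 := by
      have h2 : Real.log (1 / 2) ≤ Real.log s := Real.log_le_log (by norm_num) hs2
      have h3 : Real.log (1 / 2) = -Real.log 2 := by
        rw [one_div, Real.log_inv]
      have h4 := Real.log_two_lt_d9
      linarith
    have : max 0 (-Real.log s) ≤ 1 := max_le zero_le_one h1
    linarith
  · push Not at hs2
    have hmem : s ∈ Ioo (0 : ℝ) 1 := ⟨hs, by linarith⟩
    rw [indicator_of_mem hmem]
    have h3 : 0 ≤ -Real.log s := by
      have := Real.log_nonpos hs.le hmem.2.le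
      linarith
    rw [max_eq_right h3]
    set L : ℝ := -Real.log s with hL
    have hgu : g * u < -(1 / 2) := by linarith
    have h4 : L ≤ -2 * (g * u) * L := by nlinarith
    have h5 : -2 * (g * u) * L ≤ g * (u ^ 2 + L ^ 2) := by
      have : 0 ≤ g * (u + L) ^ 2 := by positivity
      nlinarith
    have h6 : g * u ^ 2 ≤ u ^ 2 := by nlinarith
    have h7 : g * L ^ 2 ≤ g * (16 * s ^ (-(1 / 2) : ℝ)) :=
      mul_le_mul_of_nonneg_left (log_sq_le hs hmem.2.le) hg0
    nlinarith

theorem lint_rpow : ∫⁻ s in Ioo (0 : ℝ) 1, ENNReal.ofReal (s ^ (-(1 / 2) : ℝ)) = 2 := by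
  have h1 : IntervalIntegrable (fun s : ℝ => s ^ (-(1 / 2) : ℝ)) volume 0 1 :=
    intervalIntegral.intervalIntegrable_rpow' (by norm_num)
  have h2 : ∫ s in (0 : ℝ)..1, s ^ (-(1 / 2) : ℝ) = 2 := by
    rw [integral_rpow (Or.inl (by norm_num))]
    norm_num
  have h3 : IntegrableOn (fun s : ℝ => s ^ (-(1 / 2) : ℝ)) (Ioc 0 1) :=
    (intervalIntegrable_iff_integrableOn_Ioc_of_le zero_le_one).1 h1
  rw [intervalIntegral.integral_of_le zero_le_one] at h2
  rw [Measure.restrict_congr_set Ioo_ae_eq_Ioc, ← ofReal_integral_eq_lintegral_ofReal h3, h2]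
  · norm_num
  · filter_upwards [ae_restrict_mem measurableSet_Ioc] with s hs
    exact (Real.rpow_pos_of_pos hs.1 _).le

theorem lint_affine {g : ℝ} (hg : 0 < g) {F : ℝ → ℝ≥0∞} (hF : Measurable F) :
    ∫⁻ u, ENNReal.ofReal g * F (1 + g * u) = ∫⁻ s, F s := by
  have hm : Measurable fun u : ℝ => F (1 + u) := hF.comp (measurable_const.add measurable_id)
  have hm' : Measurable fun u : ℝ => F (1 + g * u) :=
    hF.comp (measurable_const.add (measurable_const.mul measurable_id))
  rw [lintegral_const_mul _ hm']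
  have h1 : ∫⁻ u : ℝ, F (1 + g * u) = ∫⁻ y, F (1 + y) ∂(Measure.map (fun u : ℝ => g * u) volume) :=
    (lintegral_map hm (measurable_const.mul measurable_id)).symm
  rw [h1, Real.map_volume_mul_left hg.ne', lintegral_smul_measure,
    lintegral_add_left_eq_self (μ := volume) F 1, smul_eq_mul, ← mul_assoc,
    ← ENNReal.ofReal_mul hg.le, abs_of_pos (inv_pos.2 hg), mul_inv_cancel₀ hg.ne',
    ENNReal.ofReal_one, one_mul]

/-- FF-LOG -/
theorem logm : Pool.Agent.Y506.FF.S_LOG := by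
  intro C1 C2 hC1 hC2
  refine ⟨1 + C2 + 32 * C1, by positivity, ?_⟩
  intro p hp hpC hp1 hp2 g hg0 hg1
  set Ind : ℝ → ℝ := (Ioo (0 : ℝ) 1).indicator (fun s => s ^ (-(1 / 2) : ℝ)) with hInd
  have hInd0 : ∀ s, 0 ≤ Ind s := fun s =>
    indicator_nonneg (fun x hx => (Real.rpow_pos_of_pos hx.1 _).le) _
  have hIndm : Measurable Ind := (measurable_id.pow_const _).indicator measurableSet_Ioo
  have hFm : Measurable fun s => ENNReal.ofReal (Ind s) := hIndm.ennreal_ofReal
  -- the last integral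
  have hlast : ∫⁻ u, ENNReal.ofReal g * ENNReal.ofReal (Ind (1 + g * u)) ≤ 2 := by
    rcases hg0.eq_or_lt with h | h
    · rw [← h]
      simp
    · rw [lint_affine h hFm, ← lint_rpow, ← lintegral_indicator measurableSet_Ioo]
      refine le_of_eq (lintegral_congr fun s => ?_)
      by_cases hs : s ∈ Ioo (0 : ℝ) 1
      · rw [hInd, indicator_of_mem hs, indicator_of_mem hs]
      · rw [hInd, indicator_of_notMem hs, indicator_of_notMem hs, ENNReal.ofReal_zero]
  have hpt : ∀ u : ℝ, 0 < 1 + g * u → ENNReal.ofReal (max 0 (-Real.log (1 + g * u))) * p u ≤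
      p u + ENNReal.ofReal (u ^ 2) * p u + ENNReal.ofReal (16 * C1) *
        (ENNReal.ofReal g * ENNReal.ofReal (Ind (1 + g * u))) := by
    intro u hu
    have h1 : ENNReal.ofReal (max 0 (-Real.log (1 + g * u))) ≤
        1 + ENNReal.ofReal (u ^ 2) + ENNReal.ofReal 16 *
          (ENNReal.ofReal g * ENNReal.ofReal (Ind (1 + g * u))) := by
      rw [← ENNReal.ofReal_mul hg0, ← ENNReal.ofReal_mul (by norm_num), ← ENNReal.ofReal_one,
        ← ENNReal.ofReal_add zero_le_one (sq_nonneg u), ← ENNReal.ofReal_add (by positivity)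
          (mul_nonneg (by norm_num) (mul_nonneg hg0 (hInd0 _)))]
      exact ENNReal.ofReal_le_ofReal (pw_bound hg0 hg1 hu)
    calc ENNReal.ofReal (max 0 (-Real.log (1 + g * u))) * p u
        ≤ (1 + ENNReal.ofReal (u ^ 2) + ENNReal.ofReal 16 *
          (ENNReal.ofReal g * ENNReal.ofReal (Ind (1 + g * u)))) * p u := by gcongr
      _ = p u + ENNReal.ofReal (u ^ 2) * p u + ENNReal.ofReal 16 *
          (ENNReal.ofReal g * ENNReal.ofReal (Ind (1 + g * u))) * p u := by ring
      _ ≤ p u + ENNReal.ofReal (u ^ 2) * p u + ENNReal.ofReal 16 *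
          (ENNReal.ofReal g * ENNReal.ofReal (Ind (1 + g * u))) * ENNReal.ofReal C1 := by
        gcongr
        exact hpC u
      _ = _ := by
        rw [ENNReal.ofReal_mul (by norm_num : (0 : ℝ) ≤ 16)]
        ring
  have hset : MeasurableSet {u : ℝ | 0 < 1 + g * u} :=
    measurableSet_lt measurable_const (measurable_const.add (measurable_const.mul measurable_id))
  have hm1 : Measurable fun u : ℝ => ENNReal.ofReal (u ^ 2) * p u :=
    (measurable_id.pow_const 2).ennreal_ofReal.mul hp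
  have hm2 : Measurable fun u : ℝ => ENNReal.ofReal g * ENNReal.ofReal (Ind (1 + g * u)) :=
    measurable_const.mul (hFm.comp (measurable_const.add (measurable_const.mul measurable_id)))
  calc ∫⁻ u in {u | 0 < 1 + g * u}, ENNReal.ofReal (max 0 (-Real.log (1 + g * u))) * p u
      ≤ ∫⁻ u in {u | 0 < 1 + g * u}, (p u + ENNReal.ofReal (u ^ 2) * p u +
        ENNReal.ofReal (16 * C1) * (ENNReal.ofReal g * ENNReal.ofReal (Ind (1 + g * u)))) :=
        setLIntegral_mono' hset fun u hu => hpt u hu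
    _ ≤ ∫⁻ u, (p u + ENNReal.ofReal (u ^ 2) * p u +
        ENNReal.ofReal (16 * C1) * (ENNReal.ofReal g * ENNReal.ofReal (Ind (1 + g * u)))) :=
        setLIntegral_le_lintegral _ _
    _ = (∫⁻ u, p u) + (∫⁻ u, ENNReal.ofReal (u ^ 2) * p u) + ENNReal.ofReal (16 * C1) *
        ∫⁻ u, ENNReal.ofReal g * ENNReal.ofReal (Ind (1 + g * u)) := by
        have hm3 : Measurable fun u : ℝ => p u + ENNReal.ofReal (u ^ 2) * p u := hp.add hm1
        rw [lintegral_add_left hm3, lintegral_add_left hp, lintegral_const_mul _ hm2]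
    _ ≤ 1 + ENNReal.ofReal C2 + ENNReal.ofReal (16 * C1) * 2 := by gcongr
    _ = ENNReal.ofReal (1 + C2 + 32 * C1) := by
        rw [show (2 : ℝ≥0∞) = ENNReal.ofReal 2 by norm_num, ← ENNReal.ofReal_mul (by positivity),
          ← ENNReal.ofReal_one, ← ENNReal.ofReal_add zero_le_one hC2.le,
          ← ENNReal.ofReal_add (by positivity) (by positivity)]
        congr 1
        ring

end Pool.Agent.Y761.FF
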